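import Mathlib

set_option autoImplicit false

namespace Pool.Agent.H.MP_5e7574_co

/-- points of the projective plane over `ZMod p`: one-dimensional subspaces. -/
def Pt (p : ℕ) : Type :=
  {P : Submodule (ZMod p) (Fin 3 → ZMod p) // Module.finrank (ZMod p) P = 1}

/-- lines of the projective plane over `ZMod p`: two-dimensional subspaces. -/
def Ln (p : ℕ) : Type :=
  {L : Submodule (ZMod p) (Fin 3 → ZMod p) // Module.finrank (ZMod p) L = 2}

/-- number of injective label-preserving homomorphisms of the bipartite graph with classes
`Fin a`, `Fin b` and edge relation `E` into the point-line incidence graph. -/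
noncomputable def inj (a b : ℕ) (E : Fin a → Fin b → Prop) (p : ℕ) : ℕ :=
  Nat.card {f : (Fin a → Pt p) × (Fin b → Ln p) //
    Function.Injective f.1 ∧ Function.Injective f.2 ∧ ∀ x l, E x l → (f.1 x).1 ≤ (f.2 l).1}

/-- logarithm in base `p` with value minus infinity at zero. -/
noncomputable def elog (p n : ℕ) : EReal :=
  if n = 0 then ⊥ else ((Real.logb p n : ℝ) : EReal)

end Pool.Agent.H.MP_5e7574_co
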