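import Mathlib
import Pool.Agent.H.MP_5e7574_co.Defs

set_option autoImplicit false

namespace Pool.Agent.H.MP_5e7574_co

open Module Submodule

def MK (x l : Fin 8) : Prop := x = l ∨ x = l + 1 ∨ x = l + 3

instance : DecidableRel MK := fun x l => by unfold MK; infer_instance

section gen
variable {K : Type} [Field K] {V : Type} [AddCommGroup V] [Module K V]

lemma gen (P : Submodule K V) (h : finrank K P = 1) : ∃ v : V, v ≠ 0 ∧ P = K ∙ v := by
  obtain ⟨v, hv, hs⟩ := finrank_eq_one_iff'.1 h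
  refine ⟨v.1, fun e => hv (Subtype.ext e), le_antisymm ?_ ?_⟩
  · intro w hw
    obtain ⟨c, hc⟩ := hs ⟨w, hw⟩
    exact mem_span_singleton.2 ⟨c, congrArg Subtype.val hc⟩
  · exact (span_singleton_le_iff_mem _ _).2 v.2

lemma same {u v : V} (hu : u ≠ 0) {a : K} (h : u = a • v) : (K ∙ u) = K ∙ v := by
  have ha : a ≠ 0 := by rintro rfl; exact hu (by simpa using h)
  rw [h]; exact span_singleton_smul_eq (IsUnit.mk0 a ha) v

lemma pair_li {u v : V} (hu : u ≠ 0) (hv : v ≠ 0) (h : (K ∙ u) ≠ K ∙ v) :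
    LinearIndependent K ![u, v] := by
  rw [LinearIndependent.pair_iff' hu]
  intro a ha
  exact h (same hv ha.symm).symm

lemma line_eq {u v : V} (hu : u ≠ 0) (hv : v ≠ 0) (h : (K ∙ u) ≠ K ∙ v)
    (L : Submodule K V) (hL : finrank K L = 2) (h1 : u ∈ L) (h2 : v ∈ L) :
    L = span K {u, v} := by
  have hli := pair_li hu hv h
  have hr : Set.range ![u, v] = {u, v} := by
    ext w; simp [eq_comm, or_comm]
  have hf : finrank K (span K ({u, v} : Set V)) = 2 := by
    rw [← hr, finrank_span_eq_card hli]; simp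
  have : FiniteDimensional K L := FiniteDimensional.of_finrank_eq_succ hL
  symm
  apply Submodule.eq_of_le_of_finrank_eq
  · rw [span_le]; rintro w (rfl | rfl) <;> assumption
  · rw [hf, hL]

lemma comb {u v w : V} (hu : u ≠ 0) (hv : v ≠ 0) (hw : w ≠ 0) (h : (K ∙ u) ≠ K ∙ v)
    (h' : (K ∙ w) ≠ K ∙ u) (h'' : (K ∙ w) ≠ K ∙ v)
    (L : Submodule K V) (hL : finrank K L = 2) (h1 : u ∈ L) (h2 : v ∈ L) (h3 : w ∈ L) :
    ∃ a b : K, a ≠ 0 ∧ b ≠ 0 ∧ w = a • u + b • v := by
  rw [line_eq hu hv h L hL h1 h2, mem_span_pair] at h3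
  obtain ⟨a, b, e⟩ := h3
  refine ⟨a, b, ?_, ?_, e.symm⟩
  · rintro rfl; exact h'' (same hw (a := b) (by simpa using e.symm))
  · rintro rfl; exact h' (same hw (a := a) (by simpa using e.symm))

lemma root (P L : Fin 8 → Submodule K V) (hP : ∀ i, finrank K (P i) = 1)
    (hL : ∀ i, finrank K (L i) = 2) (iP : Function.Injective P) (iL : Function.Injective L)
    (hE : ∀ x l, MK x l → P x ≤ L l) : ∃ t : K, t ^ 2 + t + 1 = 0 := by
  choose v hv hPv using fun i => gen (P i) (hP i)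
  have ne : ∀ x y : Fin 8, x ≠ y → (K ∙ v x) ≠ K ∙ v y := by
    intro x y hxy e; exact hxy (iP (by rw [hPv x, hPv y, e]))
  have mem : ∀ x l, MK x l → v x ∈ L l := by
    intro x l h; apply hE x l h; rw [hPv x]; exact mem_span_singleton_self _
  have cb : ∀ x y z l : Fin 8, (x ≠ y ∧ z ≠ x ∧ z ≠ y ∧ MK x l ∧ MK y l ∧ MK z l) →
      ∃ a b : K, a ≠ 0 ∧ b ≠ 0 ∧ v z = a • v x + b • v y := by
    rintro x y z l ⟨h1, h2, h3, h4, h5, h6⟩
    exact comb (hv x) (hv y) (hv z) (ne _ _ h1) (ne _ _ h2) (ne _ _ h3) (L l) (hL l)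
      (mem _ _ h4) (mem _ _ h5) (mem _ _ h6)
  have bas : ∀ r s t : K, r • v 0 + s • v 1 + t • v 2 = 0 → r = 0 ∧ s = 0 ∧ t = 0 := by
    intro r s t h
    have ht : t = 0 := by
      by_contra ht
      have h2 : v 2 ∈ L 0 := by
        have : v 2 = (-(r / t)) • v 0 + (-(s / t)) • v 1 := by
          have h3 : t • v 2 = -(r • v 0) - s • v 1 := by
            rw [eq_sub_iff_add_eq, eq_neg_iff_add_eq_zero, ← h]; abel
          have h4 : v 2 = t⁻¹ • (t • v 2) := by rw [smul_smul, inv_mul_cancel₀ ht, one_smul]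
          rw [h4, h3]; module
        rw [this]
        exact add_mem (smul_mem _ _ (mem 0 0 (by decide))) (smul_mem _ _ (mem 1 0 (by decide)))
      have e1 := line_eq (hv 1) (hv 2) (ne 1 2 (by decide)) (L 0) (hL 0) (mem 1 0 (by decide)) h2
      have e2 := line_eq (hv 1) (hv 2) (ne 1 2 (by decide)) (L 1) (hL 1) (mem 1 1 (by decide))
        (mem 2 1 (by decide))
      exact absurd (iL (e1.trans e2.symm)) (by decide)
    subst ht
    have := (LinearIndependent.pair_iff.1 (pair_li (hv 0) (hv 1) (ne 0 1 (by decide)))) r s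
      (by simpa using h)
    exact ⟨this.1, this.2, rfl⟩
  obtain ⟨a, b, ha, hb, e3⟩ := cb 0 1 3 0 (by decide)
  obtain ⟨c, d, hc, hd, e4⟩ := cb 1 2 4 1 (by decide)
  obtain ⟨e, f, he, hf, e7⟩ := cb 0 2 7 7 (by decide)
  obtain ⟨g, h, hg, hh, e5⟩ := cb 2 3 5 2 (by decide)
  obtain ⟨i, j, hi, hj, e6⟩ := cb 3 4 6 3 (by decide)
  obtain ⟨k, l, hk, hl, f7⟩ := cb 4 5 7 4 (by decide)
  obtain ⟨m, n, hm, hn, f0⟩ := cb 5 6 0 5 (by decide)
  obtain ⟨o, q, ho, hq, f1⟩ := cb 6 7 1 6 (by decide)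
  rw [e3] at e5 e6
  rw [e4] at e6
  rw [e7, e4, e5] at f7
  rw [e5, e6] at f0
  rw [e6, e7] at f1
  obtain ⟨a1, a2, a3⟩ := bas (e - l * h * a) (-(k * c + l * h * b)) (f - (k * d + l * g))
    (by rw [← sub_eq_zero] at f7; rw [← f7]; module)
  obtain ⟨-, b2, b3⟩ := bas (1 - (m * h * a + n * i * a)) (-(m * h * b + n * (i * b + j * c)))
    (-(m * g + n * j * d)) (by rw [← sub_eq_zero] at f0; rw [← f0]; module)
  obtain ⟨c1, -, c3⟩ := bas (-(o * i * a + q * e)) (1 - o * (i * b + j * c))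
    (-(o * j * d + q * f)) (by rw [← sub_eq_zero] at f1; rw [← f1]; module)
  have r1 : c * g * e = h * (c * a * f + d * b * e) := by
    linear_combination (c * g - h * d * b) * a1 - h * a * c * a3 + h * a * d * a2
  have r3 : i * a * f = j * d * e := by
    apply mul_left_cancel₀ ho
    linear_combination (-f) * c1 + e * c3
  have r2 : h * b * j * d = g * (i * b + j * c) := by
    apply mul_left_cancel₀ hn
    linear_combination (-(h * b)) * b3 + g * b2
  have r4 : h * b * d * a * f = g * (c * a * f + d * b * e) := by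
    apply mul_left_cancel₀ hj
    linear_combination a * f * r2 + g * b * r3
  have r5 : (c * a * f) * (d * b * e) = (c * a * f + d * b * e) ^ 2 := by
    apply mul_left_cancel₀ (mul_ne_zero hg hh)
    linear_combination (h * b * d * a * f) * r1 + h * (c * a * f + d * b * e) * r4
  refine ⟨(c * a * f) / (d * b * e), ?_⟩
  field_simp
  linear_combination (-1 : K) * r5

end gen

lemma inj_zero (p : ℕ) (hp : p.Prime) (h3 : p % 3 = 2) : inj 8 8 MK p = 0 := by
  have := Fact.mk hp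
  unfold inj
  rw [Nat.card_eq_zero]; left
  refine ⟨fun ⟨f, h1, h2, h4⟩ => ?_⟩
  obtain ⟨t, ht⟩ := root (K := ZMod p) (fun i => (f.1 i).1) (fun i => (f.2 i).1)
    (fun i => (f.1 i).2) (fun i => (f.2 i).2)
    (fun x y e => h1 (Subtype.ext e)) (fun x y e => h2 (Subtype.ext e)) h4
  have t3 : t ^ 3 = 1 := by linear_combination (t - 1) * ht
  have t1 : t ≠ 1 := by
    rintro rfl
    have : ((3 : ℕ) : ZMod p) = 0 := by push_cast; linear_combination ht
    rw [ZMod.natCast_eq_zero_iff] at this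
    have := (Nat.prime_dvd_prime_iff_eq hp Nat.prime_three).1 this
    omega
  have t0 : t ≠ 0 := by rintro rfl; simp at ht
  have : Fact (Nat.Prime 3) := ⟨Nat.prime_three⟩
  have ho : orderOf t = 3 := orderOf_eq_prime t3 t1
  have := ZMod.orderOf_dvd_card_sub_one t0
  rw [ho] at this
  have := hp.two_le
  omega

def vv {K : Type} [Field K] (w : K) : Fin 8 → Fin 3 → K :=
  ![![1, 0, 0], ![0, 1, 0], ![0, 0, 1], ![1, 1, 0], ![0, 1, 1], ![1, 1, 1 + w], ![1, 1 + w, w],
    ![1, 0, w]]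

def nn {K : Type} [Field K] (w : K) : Fin 8 → Fin 3 → K :=
  ![![0, 0, 1], ![1, 0, 0], ![1, -1, 0], ![1, -1, 1], ![-w, -1, 1], ![0, 1 + w, -1], ![w, 0, -1],
    ![0, 1, 0]]

lemma table {K : Type} [Field K] (w : K) (hw : w ^ 2 + w + 1 = 0) (x l : Fin 8) :
    nn w l 0 * vv w x 0 + nn w l 1 * vv w x 1 + nn w l 2 * vv w x 2 = 0 ↔ MK x l := by
  have w0 : w ≠ 0 := by rintro rfl; simp at hw
  have w1 : 1 + w ≠ 0 := by
    intro h; apply w0
    have : w ^ 2 = 0 := by linear_combination hw - h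
    exact pow_eq_zero_iff (two_ne_zero) |>.1 this
  have w2 : (1 + w) * (1 + w) = w := by linear_combination hw
  have w3 : -w + -1 ≠ 0 := fun h => w1 (by linear_combination -h)
  have w4 : -w + (-w + -1) + w ≠ 0 := fun h => w1 (by linear_combination -h)
  have w5 : w + (-w + -1) ≠ 0 := fun h => one_ne_zero (α := K) (by linear_combination -h)
  fin_cases x <;> fin_cases l <;> simp [nn, vv, MK, w0, w1, w2, w3, w4, w5]

lemma inj_pos (p : ℕ) (hp : p.Prime) (h3 : p % 3 = 1) : 1 ≤ inj 8 8 MK p := by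
  have := Fact.mk hp
  have : Fact (Nat.Prime 3) := ⟨Nat.prime_three⟩
  obtain ⟨u, hu⟩ := exists_prime_orderOf_dvd_card (G := (ZMod p)ˣ) 3 (by
    rw [ZMod.card_units]; have := hp.two_le; omega)
  set w : ZMod p := u.1 with hwd
  have w3 : w ^ 3 = 1 := by
    rw [hwd, ← Units.val_pow_eq_pow_val, ← hu, pow_orderOf_eq_one]; rfl
  have w1 : w ≠ 1 := by
    intro h
    have : u = 1 := Units.ext h
    rw [this, orderOf_one] at hu; omega
  have hw : w ^ 2 + w + 1 = 0 := by
    apply mul_left_cancel₀ (sub_ne_zero.2 w1)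
    linear_combination w3
  let φ : Fin 8 → ((Fin 3 → ZMod p) →ₗ[ZMod p] ZMod p) := fun l =>
    nn w l 0 • LinearMap.proj 0 + nn w l 1 • LinearMap.proj 1 + nn w l 2 • LinearMap.proj 2
  have hφ : ∀ x l, φ l (vv w x) = 0 ↔ MK x l := by
    intro x l; rw [← table w hw x l]; simp [φ]
  have sepP : ∀ x y : Fin 8, x ≠ y → ∃ l, MK x l ∧ ¬ MK y l := by decide
  have sepL : ∀ l m : Fin 8, l ≠ m → ∃ x, MK x l ∧ ¬ MK x m := by decide
  have exx : ∀ x : Fin 8, ∃ l, ¬ MK x l := by decide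
  have exl : ∀ l : Fin 8, ∃ x, ¬ MK x l := by decide
  have v0 : ∀ x, vv w x ≠ 0 := by
    intro x h; obtain ⟨l, hl⟩ := exx x
    exact hl ((hφ x l).1 (by rw [h, map_zero]))
  have fk : ∀ l, finrank (ZMod p) (LinearMap.ker (φ l)) = 2 := by
    intro l
    obtain ⟨x, hx⟩ := exl l
    have hne : φ l ≠ 0 := fun h => hx ((hφ x l).1 (by rw [h]; rfl))
    have := Module.Dual.finrank_ker_add_one_of_ne_zero hne
    simp at this; omega
  have : Finite (Submodule (ZMod p) (Fin 3 → ZMod p)) :=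
    Finite.of_injective _ SetLike.coe_injective
  have : Finite (Pt p) := by unfold Pt; infer_instance
  have : Finite (Ln p) := by unfold Ln; infer_instance
  unfold inj
  refine Nat.card_pos_iff.2 ⟨⟨⟨(fun x => ⟨(ZMod p) ∙ vv w x, finrank_span_singleton (v0 x)⟩,
    fun l => ⟨LinearMap.ker (φ l), fk l⟩), ?_, ?_, ?_⟩⟩, inferInstance⟩
  · intro x y e
    by_contra hxy
    obtain ⟨l, h1, h2⟩ := sepP x y hxy
    have e' : ((ZMod p) ∙ vv w x) = (ZMod p) ∙ vv w y := congrArg Subtype.val e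
    have : vv w y ∈ (ZMod p) ∙ vv w x := by rw [e']; exact mem_span_singleton_self _
    obtain ⟨a, ha⟩ := mem_span_singleton.1 this
    exact h2 ((hφ y l).1 (by rw [← ha, map_smul, (hφ x l).2 h1, smul_zero]))
  · intro l m e
    by_contra hlm
    obtain ⟨x, h1, h2⟩ := sepL l m hlm
    have e' : LinearMap.ker (φ l) = LinearMap.ker (φ m) := congrArg Subtype.val e
    have : vv w x ∈ LinearMap.ker (φ m) := by rw [← e']; exact (hφ x l).2 h1
    exact h2 ((hφ x m).1 this)
  · intro x l h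
    exact (span_singleton_le_iff_mem _ _).2 ((hφ x l).2 h)

open Filter Topology in
lemma noconv : ¬ ∃ L : EReal, Tendsto
    (fun n => elog (Nat.nth Nat.Prime n) (inj 8 8 MK (Nat.nth Nat.Prime n))) atTop (𝓝 L) := by
  rintro ⟨L, hL⟩
  have fr : ∀ a : ℕ, a.Coprime 3 → ∃ᶠ n in atTop, Nat.nth Nat.Prime n ≡ a [MOD 3] := by
    intro a ha
    rw [frequently_atTop]
    intro N
    obtain ⟨p, h1, h2, h3⟩ :=
      Nat.forall_exists_prime_gt_and_modEq (Nat.nth Nat.Prime N) (q := 3) (by norm_num) ha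
    refine ⟨Nat.count Nat.Prime p, ?_, by rwa [Nat.nth_count h2]⟩
    by_contra hlt
    have := Nat.nth_strictMono Nat.infinite_setOfPred_prime (not_le.1 hlt)
    rw [Nat.nth_count h2] at this
    exact lt_asymm h1 this
  have hb : L ≤ ⊥ := by
    apply le_of_tendsto_of_frequently hL
    refine (fr 2 (by norm_num)).mono fun n hn => ?_
    rw [inj_zero _ (Nat.prime_nth_prime n) hn]; simp [elog]
  have h0 : (0 : EReal) ≤ L := by
    apply ge_of_tendsto_of_frequently hL
    refine (fr 1 (by norm_num)).mono fun n hn => ?_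
    have h1 := inj_pos _ (Nat.prime_nth_prime n) hn
    unfold elog
    rw [if_neg (by omega)]
    have : (0 : ℝ) ≤ Real.logb (Nat.nth Nat.Prime n) (inj 8 8 MK (Nat.nth Nat.Prime n)) :=
      Real.logb_nonneg (by exact_mod_cast (Nat.prime_nth_prime n).one_lt) (by exact_mod_cast h1)
    exact_mod_cast this
  exact absurd (h0.trans hb) (by simp)

end Pool.Agent.H.MP_5e7574_co
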